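import Pool.Agent.Y374.PF.Count
import Pool.Agent.Y374.PF.Small
import Pool.Agent.Y374.PF.Ineq
import Pool.Agent.Y374.PF.Degree

/-!
# Section rings from Gorenstein rings of codimension three: sections of the generating sheaf

`R = k[x₁, …, x_N]/I` with positive weights `w i`, where `I` is generated by the `2 ρ + 1`
submaximal Pfaffians of a homogeneous alternating matrix of size `2 ρ + 1` (by Buchsbaum and
Eisenbud every homogeneous Gorenstein ideal of codimension three is of this form), a finite group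
`G` acting diagonally, and `S = ⨁ₘ (R_{hm})^G`. If `S` is a section ring and `a(R) < 0`, then
`S₁ ≠ 0`; if `h = 1`, then `dim S₁ ≥ -a(R)`.

Idea of the proof. Let `n` be the number of the coordinates which are fixed by an element of
`G × μ_∞` whose character on `S₁` is not trivial. The Pfaffians have no common zero on the subspace
of these coordinates. The entries which do not vanish on it form a graph on the `2 ρ + 1` indices.
If the graph is complete there are `2 ρ + 1` equations; if it is complete bipartite, the `ρ + 1`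
entries of one column suffice; if it is not connected, one equation, a Pfaffian of a block,
suffices. In all cases `ρ n` is at most the number of edges. If some degrees of entries are not
positive, `n` is at most the number of entries in the first two rows. These inequalities are
averaged over the group against `1 - Re μ ^ h`.
-/

set_option autoImplicit false

namespace Pool.Agent.Results.MP_954e53_ag.CodimensionThree

open MvPolynomial Finset Pool.Agent.TH144.NV Pool.Agent.Y374.PF

/-- A graded ring `k[x]/(Pfaffians)` with positive weights, and a diagonal action of `G`.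
`w i`: weights of the variables; the entry `M a b`, `a ≠ b`, of the alternating matrix `M` is
homogeneous of degree `e a + e b + ε`, and zero if this number is not positive; the indices are
ordered so that `e` is monotone, and `e a + e b + ε > 0` for `a < b` with `a + b ≥ 2 ρ + 1`
(indices counted from one), which is the case if the Pfaffians generate an ideal of codimension
three; `pf i` is the Pfaffian of `M` without row and column `i`, i.e. the square root of the
determinant; `G` acts by the characters `α i` on the variables, and by `χ a χ b ψ` on `M a b`. -/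
structure Datum (k : Type) [Field k] (G : Type) [Group G] (N ρ : ℕ) where
  w : Fin N → ℕ
  w_pos : ∀ i, 0 < w i
  e : Fin (2 * ρ + 1) → ℤ
  ε : ℤ
  mono : Monotone e
  diesel : ∀ a b : Fin (2 * ρ + 1), a < b → 2 * ρ + 1 ≤ ((a : ℕ) + 1) + ((b : ℕ) + 1) →
    0 < e a + e b + ε
  M : Matrix (Fin (2 * ρ + 1)) (Fin (2 * ρ + 1)) (MvPolynomial (Fin N) k)
  diag : ∀ a, M a a = 0
  skew : ∀ a b, M b a = - M a b
  small : ∀ a b, a ≠ b → e a + e b + ε ≤ 0 → M a b = 0
  homogeneous : ∀ a b (m : ℕ), (m : ℤ) = e a + e b + ε → IsWeightedHomogeneous w (M a b) m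
  pf : Fin (2 * ρ + 1) → MvPolynomial (Fin N) k
  pf_sq : ∀ i, pf i ^ 2 = (M.submatrix i.succAbove i.succAbove).det
  α : Fin N → G →* kˣ
  χ : Fin (2 * ρ + 1) → G →* kˣ
  ψ : G →* kˣ
  semi : ∀ g a b, act (fun i => (α i g : k)) (M a b) = C ((χ a g * χ b g * ψ g : kˣ) : k) * M a b

variable {k : Type} [Field k] {G : Type} [Group G] {N ρ : ℕ}

namespace Datum

variable (D : Datum k G N ρ)

/-- the ideal of the Pfaffians -/
noncomputable def I : Ideal (MvPolynomial (Fin N) k) := Ideal.span (Set.range D.pf)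

/-- the cone over `Proj R` -/
def Cone : Set (Fin N → k) := {p | ∀ i, eval p (D.pf i) = 0}

/-- the degree of the last syzygy, `a(R) + ∑ w i` -/
def top : ℤ := 2 * ∑ a, D.e a + (2 * ρ + 1) * D.ε

/-- the automorphism `xᵢ ↦ α i g • xᵢ` of the polynomial ring -/
noncomputable def act (g : G) : MvPolynomial (Fin N) k →ₐ[k] MvPolynomial (Fin N) k :=
  Pool.Agent.TH144.NV.act fun i => (D.α i g : k)

/-- the class of `a` in `R` is a `G`-invariant form of degree `n` -/
def Inv (n : ℕ) (a : MvPolynomial (Fin N) k) : Prop :=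
  IsWeightedHomogeneous D.w a n ∧ ∀ g, Ideal.Quotient.mk D.I (D.act g a) = Ideal.Quotient.mk D.I a

/-- the space `(R_n)^G` of the classes of these forms -/
noncomputable def sections (n : ℕ) : Submodule k (MvPolynomial (Fin N) k ⧸ D.I) where
  carrier := {q | ∃ a, D.Inv n a ∧ Ideal.Quotient.mk D.I a = q}
  add_mem' := by
    rintro _ _ ⟨a, ha, rfl⟩ ⟨b, hb, rfl⟩
    refine ⟨a + b, ⟨ha.1.add hb.1, fun g => ?_⟩, map_add _ _ _⟩
    rw [map_add, map_add, map_add, ha.2, hb.2]
  zero_mem' := ⟨0, ⟨isWeightedHomogeneous_zero _ _ _, fun g => by rw [map_zero]⟩, map_zero _⟩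
  smul_mem' := by
    rintro c _ ⟨a, ha, rfl⟩
    refine ⟨c • a, ⟨?_, fun g => ?_⟩, ?_⟩
    · exact (mem_weightedHomogeneousSubmodule k D.w n _).1
        (Submodule.smul_mem _ c ((mem_weightedHomogeneousSubmodule k D.w n _).2 ha.1))
    · rw [map_smul]
      have h1 := ha.2 g
      rw [Ideal.Quotient.eq] at h1 ⊢
      rw [← smul_sub, smul_eq_C_mul]
      exact Ideal.mul_mem_left _ _ h1
    · exact map_smul (Ideal.Quotient.mkₐ k D.I) c a

/-- At every point of `Proj R` invariant forms of some consecutive degrees `hm`, `h(m+1)` do not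
vanish. This holds if `⨁ₘ (R_{hm})^G` is the section ring of an ample invertible sheaf. -/
def SectionRing (h : ℕ) : Prop :=
  ∀ p ∈ D.Cone, p ≠ 0 → ∃ (m : ℕ) (a b : MvPolynomial (Fin N) k),
    D.Inv (h * m) a ∧ D.Inv (h * (m + 1)) b ∧ eval p a ≠ 0 ∧ eval p b ≠ 0

theorem eval_mem {p : Fin N → k} (hp : p ∈ D.Cone) {a : MvPolynomial (Fin N) k} (ha : a ∈ D.I) :
    eval p a = 0 := by
  have h1 : D.I ≤ RingHom.ker (eval p) := by
    rw [I, Ideal.span_le]
    rintro _ ⟨j, rfl⟩
    exact (RingHom.mem_ker).2 (hp j)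
  exact (RingHom.mem_ker).1 (h1 ha)

theorem eval_inv {p : Fin N → k} (hp : p ∈ D.Cone) {n : ℕ} {a : MvPolynomial (Fin N) k}
    (ha : D.Inv n a) (g : G) : eval (fun i => (D.α i g : k) * p i) a = eval p a := by
  rw [← eval_act]
  have h1 := ha.2 g
  rw [Ideal.Quotient.eq] at h1
  have h2 := D.eval_mem hp h1
  rw [map_sub, sub_eq_zero] at h2
  exact h2

/-- eigenvalues of fixed lines are `h`-th roots of unity -/
theorem pow_eq_one {h : ℕ} (hS : D.SectionRing h) {p : Fin N → k} (hp : p ∈ D.Cone) (hp0 : p ≠ 0)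
    (g : G) (μ : kˣ) (hfix : ∀ i, (D.α i g : k) * p i = (μ : k) ^ D.w i * p i) : μ ^ h = 1 := by
  obtain ⟨m, a, b, ha, hb, ha0, hb0⟩ := hS p hp hp0
  have key : ∀ {n : ℕ} {a : MvPolynomial (Fin N) k}, D.Inv n a → eval p a ≠ 0 →
      (μ : k) ^ n = 1 := by
    intro n a ha ha0
    have h1 := D.eval_inv hp ha g
    rw [show (fun i => (D.α i g : k) * p i) = fun i => (μ : k) ^ D.w i * p i from funext hfix,
      eval_wscale ha.1] at h1
    exact mul_right_cancel₀ ha0 (by rw [h1, one_mul])
  have h1 := key ha ha0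
  have h2 := key hb hb0
  rw [mul_add, pow_add, h1, one_mul, mul_one] at h2
  ext
  simpa using h2

theorem eval_origin (a b : Fin (2 * ρ + 1)) : eval 0 (D.M a b) = 0 := by
  rcases eq_or_ne a b with rfl | hab
  · rw [D.diag, map_zero]
  rcases le_or_gt (D.e a + D.e b + D.ε) 0 with h | h
  · rw [D.small a b hab h, map_zero]
  · obtain ⟨m, hm⟩ := Int.eq_ofNat_of_zero_le h.le
    refine Pool.Agent.TH144.NV.eval_origin (D.homogeneous a b m (by rw [hm])) ?_
    omega

/-- nonvanishing entries have matching characters -/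
theorem eval_entry {T : Finset (Fin N)} {g : G} {μ : kˣ} (hT : ∀ i, i ∈ T → D.α i g = μ ^ D.w i)
    {a b : Fin (2 * ρ + 1)} (hab : a ≠ b)
    (hne : ∀ m : ℕ, 0 < m → (m : ℤ) = D.e a + D.e b + D.ε → D.χ a g * D.χ b g * D.ψ g ≠ μ ^ m)
    {p : Fin N → k} (hp : ∀ i, i ∉ T → p i = 0) : eval p (D.M a b) = 0 := by
  rcases le_or_gt (D.e a + D.e b + D.ε) 0 with h | h
  · rw [D.small a b hab h, map_zero]
  · obtain ⟨m, hm⟩ := Int.eq_ofNat_of_zero_le h.le
    have hm' : (m : ℤ) = D.e a + D.e b + D.ε := by rw [hm]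
    refine eval_eq_zero_of_ne (D.homogeneous a b m hm') (fun i => (D.α i g : k))
      ((D.χ a g * D.χ b g * D.ψ g : kˣ) : k) (D.semi g a b) (μ : k) ?_ ?_
    · intro i
      by_cases hi : i ∈ T
      · rw [hT i hi, Units.val_pow_eq_pow_val]
      · rw [hp i hi, mul_zero, mul_zero]
    · intro h1
      apply hne m (by omega) hm'
      ext
      rw [h1, Units.val_pow_eq_pow_val]

open Classical in
/-- the weights which take no part in level `h` -/
theorem not_good_le [IsAlgClosed k] [CharZero k] [Finite G] (hρ : 2 ≤ ρ) {h : ℕ}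
    (hS : D.SectionRing h) :
    ∑ i ∈ univ.filter (fun i => ¬ Good h (D.w i) (D.α i)), (D.w i : ℤ) ≤ D.top := by
  set i0 : Fin (2 * ρ + 1) := ⟨0, by omega⟩ with hi0
  set i1 : Fin (2 * ρ + 1) := ⟨1, by omega⟩ with hi1
  have hV : ∀ (g : G) (μ : kˣ), μ ^ h ≠ 1 → ∀ T : Finset (Fin N),
      (∀ i, i ∈ T → D.α i g = μ ^ D.w i) → ∀ p : Fin N → k, (∀ i, i ∉ T → p i = 0) →
      (∀ i, eval p (D.pf i) = 0) → p = 0 := by
    intro g μ hμ T hT p hp hpf
    by_contra hp0
    refine hμ (D.pow_eq_one hS hpf hp0 g μ (fun i => ?_))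
    by_cases hi : i ∈ T
    · rw [hT i hi, Units.val_pow_eq_pow_val]
    · rw [hp i hi, mul_zero, mul_zero]
  by_cases hall : 0 < D.e i0 + D.e i1 + D.ε
  · -- all degrees are positive
    have hpos : ∀ a b : Fin (2 * ρ + 1), a < b → 0 < D.e a + D.e b + D.ε := by
      intro a b hab
      have h1 : D.e i0 ≤ D.e a := D.mono (by rw [Fin.le_def]; simp [hi0])
      have h2 : D.e i1 ≤ D.e b := D.mono (by
        rw [Fin.le_def]
        rw [Fin.lt_def] at hab
        simp only [hi1]
        omega)
      omega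
    have hd : ∀ x : {x : Fin (2 * ρ + 1) × Fin (2 * ρ + 1) // x.1 < x.2},
        0 < (D.e x.1.1 + D.e x.1.2 + D.ε).toNat := fun x => by
      have := hpos _ _ x.2
      omega
    have main := main_ineq (k := k) (G := G) (fun x : Fin ρ × Fin N => D.w x.2)
      (fun x => D.w_pos x.2)
      (fun x : {x : Fin (2 * ρ + 1) × Fin (2 * ρ + 1) // x.1 < x.2} =>
        (D.e x.1.1 + D.e x.1.2 + D.ε).toNat) hd
      (fun x => D.α x.2) (fun x => D.χ x.1.1 * D.χ x.1.2 * D.ψ) h (by
      intro g μ hμ
      set T : Finset (Fin N) := univ.filter (fun i => D.α i g = μ ^ D.w i) with hT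
      have hTm : ∀ i, i ∈ T → D.α i g = μ ^ D.w i := fun i hi => (Finset.mem_filter.1 hi).2
      set z : Fin (2 * ρ + 1) → kˣ := fun a => D.χ a g * μ ^ (- D.e a) with hz
      set τ : kˣ := (D.ψ g)⁻¹ * μ ^ D.ε with hτ
      have hiff : ∀ a b : Fin (2 * ρ + 1), ∀ m : ℕ, (m : ℤ) = D.e a + D.e b + D.ε →
          (z a * z b = τ ↔ D.χ a g * D.χ b g * D.ψ g = μ ^ m) := by
        intro a b m hm
        have e1 : z a * z b = D.χ a g * D.χ b g * (μ ^ (D.e a + D.e b))⁻¹ := by
          simp only [hz]
          rw [zpow_add, zpow_neg, zpow_neg, mul_inv]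
          exact mul_mul_mul_comm _ _ _ _
        have e2 : μ ^ m = μ ^ (D.e a + D.e b) * μ ^ D.ε := by
          rw [← zpow_add, ← hm, zpow_natCast]
        rw [e1, e2, hτ]
        constructor
        · intro h1
          have h2 : D.χ a g * D.χ b g = (D.ψ g)⁻¹ * μ ^ D.ε * μ ^ (D.e a + D.e b) := by
            rw [← h1, inv_mul_cancel_right]
          rw [h2, mul_comm (_ * _ * _) (D.ψ g), ← mul_assoc, ← mul_assoc, mul_inv_cancel, one_mul,
            mul_comm]
        · intro h1
          have h2 : D.χ a g * D.χ b g = μ ^ (D.e a + D.e b) * μ ^ D.ε * (D.ψ g)⁻¹ := by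
            rw [← h1, mul_inv_cancel_right]
          rw [h2, mul_comm, ← mul_assoc, ← mul_assoc, inv_mul_cancel, one_mul, mul_comm]
      have hcount := count_uniform (k := k) (by omega : 1 ≤ ρ) D.M D.diag D.skew
        D.eval_origin D.pf D.pf_sq T z τ (by
          intro a b hab p hp
          rcases eq_or_ne a b with rfl | hne
          · rw [D.diag, map_zero]
          · refine D.eval_entry hTm hne (fun m _ hm h1 => ?_) hp
            exact hab ((hiff a b m hm).2 h1)) (hV g μ hμ T hTm)
      have e1 : (univ.filter fun x : Fin ρ × Fin N => D.α x.2 g = μ ^ D.w x.2).card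
          = ρ * T.card := by
        have : (univ.filter fun x : Fin ρ × Fin N => D.α x.2 g = μ ^ D.w x.2)
            = (univ : Finset (Fin ρ)) ×ˢ T := by
          ext x
          simp [hT]
        rw [this, Finset.card_product, Finset.card_univ, Fintype.card_fin]
      rw [e1]
      refine hcount.trans ?_
      refine Finset.card_le_card_of_injOn
        (fun x => if hx : x.1 < x.2 then
          (⟨x, hx⟩ : {x : Fin (2 * ρ + 1) × Fin (2 * ρ + 1) // x.1 < x.2})
          else ⟨(i0, i1), by rw [Fin.lt_def]; simp [hi0, hi1]⟩) ?_ ?_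
      · intro x hx
        simp only [pairs, Finset.coe_filter, mem_univ, true_and, Set.mem_ofPred_eq] at hx
        simp only [Finset.coe_filter, mem_univ, true_and, Set.mem_ofPred_eq]
        rw [dif_pos hx.1]
        have h1 := hpos _ _ hx.1
        exact (hiff x.1 x.2 (D.e x.1 + D.e x.2 + D.ε).toNat (by omega)).1 hx.2
      · intro x hx y hy hxy
        simp only [pairs, Finset.coe_filter, mem_univ, true_and, Set.mem_ofPred_eq] at hx hy
        simp only [dif_pos hx.1, dif_pos hy.1] at hxy
        exact congrArg Subtype.val hxy)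
    have h1 : ∑ x ∈ univ.filter (fun x : Fin ρ × Fin N => ¬ Good h (D.w x.2) (D.α x.2)), D.w x.2
        = ρ * ∑ i ∈ univ.filter (fun i => ¬ Good h (D.w i) (D.α i)), D.w i := by
      have : (univ.filter fun x : Fin ρ × Fin N => ¬ Good h (D.w x.2) (D.α x.2))
          = (univ : Finset (Fin ρ)) ×ˢ univ.filter (fun i => ¬ Good h (D.w i) (D.α i)) := by
        ext x
        simp
      rw [this, Finset.sum_product]
      simp
    have h2 : ∑ x ∈ univ.filter (fun x : {x : Fin (2 * ρ + 1) × Fin (2 * ρ + 1) // x.1 < x.2} =>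
        ¬ Good h ((D.e x.1.1 + D.e x.1.2 + D.ε).toNat) (D.χ x.1.1 * D.χ x.1.2 * D.ψ)),
        (D.e x.1.1 + D.e x.1.2 + D.ε).toNat
        ≤ ∑ x : {x : Fin (2 * ρ + 1) × Fin (2 * ρ + 1) // x.1 < x.2},
          (D.e x.1.1 + D.e x.1.2 + D.ε).toNat :=
      Finset.sum_le_sum_of_subset (Finset.filter_subset _ _)
    have h3 : ((∑ x : {x : Fin (2 * ρ + 1) × Fin (2 * ρ + 1) // x.1 < x.2},
          (D.e x.1.1 + D.e x.1.2 + D.ε).toNat : ℕ) : ℤ)
        = ∑ x ∈ univ.filter (fun x : Fin (2 * ρ + 1) × Fin (2 * ρ + 1) => x.1 < x.2),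
          (D.e x.1 + D.e x.2 + D.ε) := by
      rw [Nat.cast_sum]
      rw [← Finset.sum_subtype_eq_sum_filter]
      rw [← Finset.subtype_univ]
      refine Finset.sum_congr rfl (fun x _ => ?_)
      have := hpos _ _ x.2
      omega
    have h4 := sum_pairs (2 * ρ + 1) D.e D.ε
    have h5 : (ρ : ℤ) * ∑ i ∈ univ.filter (fun i => ¬ Good h (D.w i) (D.α i)), (D.w i : ℤ)
        ≤ ρ * D.top := by
      have h6 : ρ * ∑ i ∈ univ.filter (fun i => ¬ Good h (D.w i) (D.α i)), D.w i
          ≤ ∑ x : {x : Fin (2 * ρ + 1) × Fin (2 * ρ + 1) // x.1 < x.2},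
          (D.e x.1.1 + D.e x.1.2 + D.ε).toNat := by
        rw [← h1]
        exact le_trans (by convert main) h2
      have h7 : ((ρ * ∑ i ∈ univ.filter (fun i => ¬ Good h (D.w i) (D.α i)), D.w i : ℕ) : ℤ)
          ≤ ∑ x ∈ univ.filter (fun x : Fin (2 * ρ + 1) × Fin (2 * ρ + 1) => x.1 < x.2),
          (D.e x.1 + D.e x.2 + D.ε) := by
        rw [← h3]
        exact_mod_cast h6
      push_cast at h7 h4
      unfold top
      nlinarith
    exact le_of_mul_le_mul_left h5 (by omega)
  · -- the first two rows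
    push Not at hall
    let κ := {x : Fin 2 × Fin (2 * ρ + 1) // 2 ≤ (x.2 : ℕ) ∧
      0 < D.e ⟨(x.1 : ℕ), by omega⟩ + D.e x.2 + D.ε}
    let row : κ → Fin (2 * ρ + 1) := fun x => ⟨(x.1.1 : ℕ), by omega⟩
    let col : κ → Fin (2 * ρ + 1) := fun x => x.1.2
    have hκpos : ∀ x : κ, 0 < D.e (row x) + D.e (col x) + D.ε := fun x => x.2.2
    have main := main_ineq (k := k) (G := G) D.w D.w_pos
      (fun x : κ => (D.e (row x) + D.e (col x) + D.ε).toNat)
      (fun x => by have := hκpos x; omega)
      D.α (fun x => D.χ (row x) * D.χ (col x) * D.ψ) h (by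
      intro g μ hμ
      set T : Finset (Fin N) := univ.filter (fun i => D.α i g = μ ^ D.w i) with hT
      have hTm : ∀ i, i ∈ T → D.α i g = μ ^ D.w i := fun i hi => (Finset.mem_filter.1 hi).2
      set E := univ.filter (fun x : κ => (D.χ (row x) * D.χ (col x) * D.ψ) g
        = μ ^ (D.e (row x) + D.e (col x) + D.ε).toNat) with hE
      have h1 := count_rows D.M D.skew D.eval_origin D.pf D.pf_sq T i0 i1
        (by rw [Ne, Fin.ext_iff]; simp [hi0, hi1]) (κ := {x // x ∈ E}) (fun x => row x.1)
        (fun x => col x.1) (by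
        intro a b ha hj p hp
        rcases eq_or_ne a b with rfl | hab
        · rw [D.diag, map_zero]
        refine D.eval_entry hTm hab (fun m hm0 hm h1 => ?_) hp
        by_cases hb : 2 ≤ (b : ℕ)
        · -- the entry is in the list
          have ha2 : (a : ℕ) < 2 := by
            rcases ha with rfl | rfl
            · simp [hi0]
            · simp [hi1]
          let x : κ := ⟨(⟨(a : ℕ), ha2⟩, b), hb, by
            show 0 < D.e ⟨(a : ℕ), _⟩ + D.e b + D.ε
            have : (⟨(a : ℕ), by omega⟩ : Fin (2 * ρ + 1)) = a := rfl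
            rw [this]
            omega⟩
          have hrow : row x = a := rfl
          have hcol : col x = b := rfl
          have hx : x ∈ E := by
            rw [hE, Finset.mem_filter]
            refine ⟨mem_univ _, ?_⟩
            rw [hrow, hcol, ← hm, Int.toNat_natCast]
            exact h1
          exact hj ⟨x, hx⟩ ⟨hrow, hcol⟩
        · -- the entry between the first two indices
          have hab' : D.e a + D.e b + D.ε = D.e i0 + D.e i1 + D.ε := by
            rcases ha with rfl | rfl
            · have : b = i1 := by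
                rw [Ne, Fin.ext_iff] at hab
                rw [Fin.ext_iff]
                simp only [hi0, hi1] at hab ⊢
                omega
              rw [this]
            · have : b = i0 := by
                rw [Ne, Fin.ext_iff] at hab
                rw [Fin.ext_iff]
                simp only [hi0, hi1] at hab ⊢
                omega
              rw [this]
              ring
          omega) (hV g μ hμ T hTm)
      rw [Fintype.card_coe] at h1
      exact h1)
    have h2 : ∑ x ∈ univ.filter (fun x : κ =>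
        ¬ Good h ((D.e (row x) + D.e (col x) + D.ε).toNat) (D.χ (row x) * D.χ (col x) * D.ψ)),
        (D.e (row x) + D.e (col x) + D.ε).toNat
        ≤ ∑ x : κ, (D.e (row x) + D.e (col x) + D.ε).toNat :=
      Finset.sum_le_sum_of_subset (Finset.filter_subset _ _)
    -- the sum over the list
    have h3 : ∑ x : κ, ((D.e (row x) + D.e (col x) + D.ε).toNat : ℤ)
        ≤ ∑ b ∈ univ.filter (fun b : Fin (2 * ρ + 1) => 2 ≤ (b : ℕ)),
          (max (D.e i0 + D.e b + D.ε) 0 + max (D.e i1 + D.e b + D.ε) 0) := by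
      have e1 : ∑ b ∈ univ.filter (fun b : Fin (2 * ρ + 1) => 2 ≤ (b : ℕ)),
          (max (D.e i0 + D.e b + D.ε) 0 + max (D.e i1 + D.e b + D.ε) 0)
          = ∑ x ∈ univ.filter (fun x : Fin 2 × Fin (2 * ρ + 1) => 2 ≤ (x.2 : ℕ)),
            max (D.e ⟨(x.1 : ℕ), by omega⟩ + D.e x.2 + D.ε) 0 := by
        rw [Finset.sum_filter, Finset.sum_filter, Fintype.sum_prod_type, Fin.sum_univ_two,
          ← Finset.sum_add_distrib]
        refine Finset.sum_congr rfl (fun b _ => ?_)
        split_ifs
        · rfl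
        · rw [add_zero]
      rw [e1]
      have e2 : ∑ x : κ, ((D.e (row x) + D.e (col x) + D.ε).toNat : ℤ)
          = ∑ x ∈ univ.filter (fun x : Fin 2 × Fin (2 * ρ + 1) => 2 ≤ (x.2 : ℕ) ∧
              0 < D.e ⟨(x.1 : ℕ), by omega⟩ + D.e x.2 + D.ε),
            max (D.e ⟨(x.1 : ℕ), by omega⟩ + D.e x.2 + D.ε) 0 := by
        rw [← Finset.sum_subtype_eq_sum_filter]
        rw [← Finset.subtype_univ]
        refine Finset.sum_congr rfl (fun x _ => ?_)
        have := hκpos x
        show ((D.e (row x) + D.e (col x) + D.ε).toNat : ℤ) = max (D.e (row x) + D.e (col x) + D.ε) 0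
        rw [max_eq_left (by omega)]
        omega
      rw [e2]
      refine Finset.sum_le_sum_of_subset_of_nonneg ?_ (fun x _ _ => le_max_right _ _)
      intro x hx
      simp only [mem_filter, mem_univ, true_and] at hx ⊢
      exact hx.1
    have h4 := ineq_small hρ (fun a => 2 * D.e a + D.ε) (by
      intro a b hab
      have := D.mono hab
      show 2 * D.e a + D.ε ≤ 2 * D.e b + D.ε
      omega) (by
      intro a b hab hsum
      have := D.diesel a b hab (by omega)
      omega) (by
      show 2 * D.e i0 + D.ε + (2 * D.e i1 + D.ε) ≤ 0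
      omega)
    have h5 : ∑ b ∈ univ.filter (fun b : Fin (2 * ρ + 1) => 2 ≤ (b : ℕ)),
        (max (2 * D.e i0 + D.ε + (2 * D.e b + D.ε)) 0
          + max (2 * D.e i1 + D.ε + (2 * D.e b + D.ε)) 0)
        = 2 * ∑ b ∈ univ.filter (fun b : Fin (2 * ρ + 1) => 2 ≤ (b : ℕ)),
          (max (D.e i0 + D.e b + D.ε) 0 + max (D.e i1 + D.e b + D.ε) 0) := by
      rw [Finset.mul_sum]
      refine Finset.sum_congr rfl (fun b _ => ?_)
      rcases le_total (D.e i0 + D.e b + D.ε) 0 with h6 | h6 <;>
        rcases le_total (D.e i1 + D.e b + D.ε) 0 with h7 | h7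
      · rw [max_eq_right h6, max_eq_right h7, max_eq_right (by omega), max_eq_right (by omega)]
        ring
      · rw [max_eq_right h6, max_eq_left h7, max_eq_right (by omega), max_eq_left (by omega)]
        ring
      · rw [max_eq_left h6, max_eq_right h7, max_eq_left (by omega), max_eq_right (by omega)]
        ring
      · rw [max_eq_left h6, max_eq_left h7, max_eq_left (by omega), max_eq_left (by omega)]
        ring
    have h8 : ∑ a : Fin (2 * ρ + 1), (2 * D.e a + D.ε) = D.top := by
      unfold top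
      rw [Finset.sum_add_distrib, ← Finset.mul_sum]
      simp
    have h9 : ((∑ i ∈ univ.filter (fun i => ¬ Good h (D.w i) (D.α i)), D.w i : ℕ) : ℤ)
        ≤ ∑ x : κ, ((D.e (row x) + D.e (col x) + D.ε).toNat : ℤ) := by
      have := le_trans (by convert main) h2
      rw [← Nat.cast_sum]
      exact_mod_cast this
    push_cast at h9
    rw [h8, h5] at h4
    linarith

/-- the entries are homogeneous of positive degrees -/
theorem exists_degree (a b : Fin (2 * ρ + 1)) :
    ∃ m : ℕ, 0 < m ∧ IsWeightedHomogeneous D.w (D.M a b) m := by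
  rcases eq_or_ne a b with rfl | hab
  · exact ⟨1, one_pos, by rw [D.diag]; exact isWeightedHomogeneous_zero _ _ _⟩
  rcases le_or_gt (D.e a + D.e b + D.ε) 0 with h | h
  · exact ⟨1, one_pos, by rw [D.small a b hab h]; exact isWeightedHomogeneous_zero _ _ _⟩
  · obtain ⟨m, hm⟩ := Int.eq_ofNat_of_zero_le h.le
    exact ⟨m, by omega, D.homogeneous a b m (by rw [hm])⟩

/-- the ideal contains no forms of degree one -/
theorem eq_zero_of_mem (hρ : 2 ≤ ρ) {u : MvPolynomial (Fin N) k}
    (hu : IsWeightedHomogeneous D.w u 1) (hI : u ∈ D.I) : u = 0 :=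
  eq_zero_of_mem_one (n := 2 * ρ) (by omega) (fun i => D.M.submatrix i.succAbove i.succAbove)
    (fun _ _ _ => D.exists_degree _ _) D.pf D.pf_sq hu hI

theorem finite_sections_one : FiniteDimensional k (D.sections 1) := by
  let π : MvPolynomial (Fin N) k →ₗ[k] (MvPolynomial (Fin N) k ⧸ D.I) :=
    (Ideal.Quotient.mkₐ k D.I).toLinearMap
  have h1 : FiniteDimensional k
      (Submodule.span k (Set.range (X : Fin N → MvPolynomial (Fin N) k))) :=
    FiniteDimensional.span_of_finite k (Set.finite_range _)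
  have h3 : D.sections 1 ≤ Submodule.map π
      (Submodule.span k (Set.range (X : Fin N → MvPolynomial (Fin N) k))) := by
    rintro _ ⟨a, ha, rfl⟩
    exact ⟨a, mem_span_X D.w_pos ha.1, rfl⟩
  exact Submodule.finiteDimensional_of_le h3

/-- variables of degree one are linearly independent in `R` -/
theorem card_le_finrank (hρ : 2 ≤ ρ) (T : Finset (Fin N))
    (hInv : ∀ i ∈ T, D.Inv 1 (X i)) : T.card ≤ Module.finrank k (D.sections 1) := by
  classical
  have hfin := D.finite_sections_one
  have hmem : ∀ c : {i // i ∈ T} → k,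
      Ideal.Quotient.mk D.I (∑ i, c i • (X i.1 : MvPolynomial (Fin N) k)) ∈ D.sections 1 := by
    intro c
    rw [map_sum]
    refine Submodule.sum_mem _ (fun i _ => ?_)
    have h1 : Ideal.Quotient.mk D.I (c i • (X i.1 : MvPolynomial (Fin N) k))
        = c i • Ideal.Quotient.mk D.I (X i.1) := map_smul (Ideal.Quotient.mkₐ k D.I) _ _
    rw [h1]
    exact Submodule.smul_mem _ _ ⟨X i.1, hInv i.1 i.2, rfl⟩
  let F : ({i // i ∈ T} → k) →ₗ[k] D.sections 1 :=
    { toFun := fun c => ⟨Ideal.Quotient.mk D.I (∑ i, c i • (X i.1 : MvPolynomial (Fin N) k)),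
        hmem c⟩
      map_add' := by
        intro c d
        apply Subtype.ext
        simp only [Pi.add_apply, add_smul, Finset.sum_add_distrib, map_add]
        rfl
      map_smul' := by
        intro r c
        apply Subtype.ext
        simp only [Pi.smul_apply, smul_eq_mul, mul_smul, ← Finset.smul_sum, RingHom.id_apply]
        exact map_smul (Ideal.Quotient.mkₐ k D.I) _ _ }
  have hF : Function.Injective F := by
    rw [injective_iff_map_eq_zero]
    intro c hc
    have h1 : Ideal.Quotient.mk D.I (∑ i, c i • (X i.1 : MvPolynomial (Fin N) k)) = 0 :=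
      congrArg Subtype.val hc
    rw [Ideal.Quotient.eq_zero_iff_mem] at h1
    have h2 : IsWeightedHomogeneous D.w (∑ i, c i • (X i.1 : MvPolynomial (Fin N) k)) 1 := by
      rw [← mem_weightedHomogeneousSubmodule]
      refine Submodule.sum_mem _ (fun i _ => Submodule.smul_mem _ _ ?_)
      rw [mem_weightedHomogeneousSubmodule]
      exact (hInv i.1 i.2).1
    have h3 := D.eq_zero_of_mem hρ h2 h1
    have h4 : LinearIndependent k (fun i : {i // i ∈ T} => (X i.1 : MvPolynomial (Fin N) k)) :=
      (linearIndependent_X (Fin N) k).comp _ Subtype.val_injective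
    funext i
    exact (Fintype.linearIndependent_iff.1 h4) c h3 i
  have h5 := LinearMap.finrank_le_finrank_of_injective hF
  simpa [Module.finrank_fintype_fun_eq_card, Fintype.card_coe] using h5

end Datum

open Classical in
theorem result [IsAlgClosed k] [CharZero k] [Finite G] (D : Datum k G N ρ) (hρ : 2 ≤ ρ) {h : ℕ}
    (hh : 0 < h)
    -- no variable vanishes on the cone
    (hfull : ∀ i, ∃ p ∈ D.Cone, p i ≠ 0)
    -- the ring of the `(R_{hm})^G` is a section ring
    (hS : D.SectionRing h) :
    (∃ T : Finset (Fin N), ∑ i, (D.w i : ℤ) ≤ D.top + ∑ i ∈ T, (D.w i : ℤ) ∧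
      ∀ i ∈ T, D.w i ∣ h ∧ D.Inv h (X i ^ (h / D.w i)) ∧
        ¬ IsNilpotent (Ideal.Quotient.mk D.I (X i ^ (h / D.w i)))) ∧
    (D.top < ∑ i, (D.w i : ℤ) → ∃ s ∈ D.sections h, ¬ IsNilpotent s) ∧
    (h = 1 → ∑ i, (D.w i : ℤ) - D.top ≤ Module.finrank k (D.sections 1)) := by
  have hmain := D.not_good_le hρ hS
  set T : Finset (Fin N) := univ.filter fun i => Good h (D.w i) (D.α i) with hT
  have hsum : ∑ i, (D.w i : ℤ) ≤ D.top + ∑ i ∈ T, (D.w i : ℤ) := by
    have h1 := Finset.sum_filter_add_sum_filter_not (univ : Finset (Fin N))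
      (fun i => Good h (D.w i) (D.α i)) (fun i => (D.w i : ℤ))
    rw [← hT] at h1
    linarith
  have hprop : ∀ i ∈ T, D.w i ∣ h ∧ D.Inv h (X i ^ (h / D.w i)) ∧
        ¬ IsNilpotent (Ideal.Quotient.mk D.I (X i ^ (h / D.w i))) := by
    intro i hi
    obtain ⟨hdvd, hα⟩ := ((Finset.mem_filter.1 hi).2).dvd (D.w_pos i)
    have hne : h / D.w i ≠ 0 := by
      intro h0
      have := Nat.div_mul_cancel hdvd
      rw [h0, zero_mul] at this
      omega
    refine ⟨hdvd, ⟨?_, ?_⟩, ?_⟩
    · have h1 := (isWeightedHomogeneous_X k D.w i).pow (h / D.w i)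
      rwa [smul_eq_mul, Nat.div_mul_cancel hdvd] at h1
    · intro g
      have h1 : D.act g (X i ^ (h / D.w i)) = X i ^ (h / D.w i) := by
        rw [map_pow]
        show (Pool.Agent.TH144.NV.act (fun i => (D.α i g : k)) (X i)) ^ _ = _
        unfold Pool.Agent.TH144.NV.act
        rw [aeval_X, mul_pow, ← C_pow, ← Units.val_pow_eq_pow_val, hα g, Units.val_one, C_1,
          one_mul]
      rw [h1]
    · rintro ⟨n, hn⟩
      obtain ⟨p, hp, hpi⟩ := hfull i
      rw [← map_pow, Ideal.Quotient.eq_zero_iff_mem] at hn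
      have := D.eval_mem hp hn
      rw [map_pow, map_pow, eval_X] at this
      exact hpi (eq_zero_of_pow_eq_zero (eq_zero_of_pow_eq_zero this))
  refine ⟨⟨T, hsum, hprop⟩, ?_, ?_⟩
  · intro hlt
    have hne : T.Nonempty := by
      rw [Finset.nonempty_iff_ne_empty]
      intro h0
      rw [h0, Finset.sum_empty] at hsum
      omega
    obtain ⟨i, hi⟩ := hne
    exact ⟨_, ⟨_, (hprop i hi).2.1, rfl⟩, (hprop i hi).2.2⟩
  · rintro rfl
    have hw1 : ∀ i ∈ T, D.w i = 1 := fun i hi => Nat.dvd_one.1 (hprop i hi).1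
    have h1 := D.card_le_finrank hρ T (fun i hi => by
      have h2 := (hprop i hi).2.1
      rw [hw1 i hi] at h2
      simpa using h2)
    have h2 : ∑ i ∈ T, (D.w i : ℤ) = T.card := by
      rw [Finset.sum_congr rfl (fun i hi => by rw [hw1 i hi, Nat.cast_one])]
      simp
    rw [h2] at hsum
    have h3 : (T.card : ℤ) ≤ Module.finrank k (D.sections 1) := by exact_mod_cast h1
    linarith

end Pool.Agent.Results.MP_954e53_ag.CodimensionThree
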