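import Pool.Agent.Y374.PF.Zero
import Pool.Agent.Y374.PF.Degree

/-!
# Section rings from determinantal rings: sections of the generating sheaf

`R = k[x₁, …, x_N]/I` with positive weights `w i`, where `I` is generated by the minors of size
`r + 1` of a homogeneous square matrix of size `n` with entries of positive degrees, a finite group
`G` acting diagonally, and `S = ⨁ₘ (R_{hm})^G`. If `S` is a section ring and
`∑ w i > (n - r) deg (det M)`, i.e. `a(R) < 0`, then `S₁ ≠ 0`; if `h = 1`, then
`dim S₁ ≥ -a(R)`.

Idea of the proof. The minors have no common zero on the subspace of the coordinates which are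
fixed by an element of `G × μ_∞` whose character on `S₁` is not trivial. They vanish if the entries
of `n - r` rows vanish. So the number of these coordinates is at most the number of the entries in
these rows which do not vanish on the subspace. The inequality is averaged over the cyclic
intervals of `n - r` rows and then over the group against `1 - Re μ ^ h`.
-/

set_option autoImplicit false

namespace Pool.Agent.Results.MP_954e53_ag.DeterminantalFormats

open MvPolynomial Finset Pool.Agent.TH144.NV Pool.Agent.Y374.PF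

/-- A homogeneous square matrix over a polynomial ring with positive weights and a diagonal action
of `G`. `w i`: weights of the variables; the entry `M a b` is homogeneous of degree
`e a + f b > 0`; `G` acts by the characters `α i` on the variables, and by `χ a ψ b` on `M a b`. -/
structure Datum (k : Type) [Field k] (G : Type) [Group G] (N n : ℕ) where
  w : Fin N → ℕ
  w_pos : ∀ i, 0 < w i
  e : Fin n → ℤ
  f : Fin n → ℤ
  pos : ∀ a b, 0 < e a + f b
  M : Matrix (Fin n) (Fin n) (MvPolynomial (Fin N) k)
  homogeneous : ∀ a b (m : ℕ), (m : ℤ) = e a + f b → IsWeightedHomogeneous w (M a b) m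
  α : Fin N → G →* kˣ
  χ : Fin n → G →* kˣ
  ψ : Fin n → G →* kˣ
  semi : ∀ g a b, act (fun i => (α i g : k)) (M a b) = C ((χ a g * ψ b g : kˣ) : k) * M a b

variable {k : Type} [Field k] {G : Type} [Group G] {N n : ℕ}

namespace Datum

variable (D : Datum k G N n) (r : ℕ)

/-- the minor of size `r + 1` with the rows `x.1` and the columns `x.2` -/
noncomputable def minor (x : (Fin (r + 1) → Fin n) × (Fin (r + 1) → Fin n)) :
    MvPolynomial (Fin N) k := (D.M.submatrix x.1 x.2).det

/-- the ideal of the minors of size `r + 1` -/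
noncomputable def I : Ideal (MvPolynomial (Fin N) k) := Ideal.span (Set.range (D.minor r))

/-- the cone over `Proj R` -/
def Cone : Set (Fin N → k) := {p | ∀ x, eval p (D.minor r x) = 0}

/-- `(n - r) deg (det M)`, which is `a(R) + ∑ w i` -/
def top : ℤ := (n - r) * (∑ a, D.e a + ∑ b, D.f b)

/-- the automorphism `xᵢ ↦ α i g • xᵢ` of the polynomial ring -/
noncomputable def act (g : G) : MvPolynomial (Fin N) k →ₐ[k] MvPolynomial (Fin N) k :=
  Pool.Agent.TH144.NV.act fun i => (D.α i g : k)

/-- the class of `a` in `R` is a `G`-invariant form of degree `m` -/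
def Inv (m : ℕ) (a : MvPolynomial (Fin N) k) : Prop :=
  IsWeightedHomogeneous D.w a m ∧
    ∀ g, Ideal.Quotient.mk (D.I r) (D.act g a) = Ideal.Quotient.mk (D.I r) a

/-- the space `(R_m)^G` of the classes of these forms -/
noncomputable def sections (m : ℕ) : Submodule k (MvPolynomial (Fin N) k ⧸ D.I r) where
  carrier := {q | ∃ a, D.Inv r m a ∧ Ideal.Quotient.mk (D.I r) a = q}
  add_mem' := by
    rintro _ _ ⟨a, ha, rfl⟩ ⟨b, hb, rfl⟩
    refine ⟨a + b, ⟨ha.1.add hb.1, fun g => ?_⟩, map_add _ _ _⟩
    rw [map_add, map_add, map_add, ha.2, hb.2]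
  zero_mem' := ⟨0, ⟨isWeightedHomogeneous_zero _ _ _, fun g => by rw [map_zero]⟩, map_zero _⟩
  smul_mem' := by
    rintro c _ ⟨a, ha, rfl⟩
    refine ⟨c • a, ⟨?_, fun g => ?_⟩, ?_⟩
    · exact (mem_weightedHomogeneousSubmodule k D.w m _).1
        (Submodule.smul_mem _ c ((mem_weightedHomogeneousSubmodule k D.w m _).2 ha.1))
    · rw [map_smul]
      have h1 := ha.2 g
      rw [Ideal.Quotient.eq] at h1 ⊢
      rw [← smul_sub, smul_eq_C_mul]
      exact Ideal.mul_mem_left _ _ h1
    · exact map_smul (Ideal.Quotient.mkₐ k (D.I r)) c a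

/-- At every point of `Proj R` invariant forms of some consecutive degrees `hm`, `h(m+1)` do not
vanish. This holds if `⨁ₘ (R_{hm})^G` is the section ring of an ample invertible sheaf. -/
def SectionRing (h : ℕ) : Prop :=
  ∀ p ∈ D.Cone r, p ≠ 0 → ∃ (m : ℕ) (a b : MvPolynomial (Fin N) k),
    D.Inv r (h * m) a ∧ D.Inv r (h * (m + 1)) b ∧ eval p a ≠ 0 ∧ eval p b ≠ 0

variable {r}

theorem eval_mem {p : Fin N → k} (hp : p ∈ D.Cone r) {a : MvPolynomial (Fin N) k}
    (ha : a ∈ D.I r) : eval p a = 0 := by
  have h1 : D.I r ≤ RingHom.ker (eval p) := by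
    rw [I, Ideal.span_le]
    rintro _ ⟨j, rfl⟩
    exact (RingHom.mem_ker).2 (hp j)
  exact (RingHom.mem_ker).1 (h1 ha)

theorem eval_inv {p : Fin N → k} (hp : p ∈ D.Cone r) {m : ℕ} {a : MvPolynomial (Fin N) k}
    (ha : D.Inv r m a) (g : G) : eval (fun i => (D.α i g : k) * p i) a = eval p a := by
  rw [← eval_act]
  have h1 := ha.2 g
  rw [Ideal.Quotient.eq] at h1
  have h2 := D.eval_mem hp h1
  rw [map_sub, sub_eq_zero] at h2
  exact h2

/-- eigenvalues of fixed lines are `h`-th roots of unity -/
theorem pow_eq_one {h : ℕ} (hS : D.SectionRing r h) {p : Fin N → k} (hp : p ∈ D.Cone r)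
    (hp0 : p ≠ 0) (g : G) (μ : kˣ) (hfix : ∀ i, (D.α i g : k) * p i = (μ : k) ^ D.w i * p i) :
    μ ^ h = 1 := by
  obtain ⟨m, a, b, ha, hb, ha0, hb0⟩ := hS p hp hp0
  have key : ∀ {m : ℕ} {a : MvPolynomial (Fin N) k}, D.Inv r m a → eval p a ≠ 0 →
      (μ : k) ^ m = 1 := by
    intro m a ha ha0
    have h1 := D.eval_inv hp ha g
    rw [show (fun i => (D.α i g : k) * p i) = fun i => (μ : k) ^ D.w i * p i from funext hfix,
      eval_wscale ha.1] at h1
    exact mul_right_cancel₀ ha0 (by rw [h1, one_mul])
  have h1 := key ha ha0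
  have h2 := key hb hb0
  rw [mul_add, pow_add, h1, one_mul, mul_one] at h2
  ext
  simpa using h2

theorem exists_degree (a b : Fin n) :
    ∃ m : ℕ, 0 < m ∧ (m : ℤ) = D.e a + D.f b ∧ IsWeightedHomogeneous D.w (D.M a b) m := by
  obtain ⟨m, hm⟩ := Int.eq_ofNat_of_zero_le (D.pos a b).le
  have := D.pos a b
  exact ⟨m, by omega, hm.symm, D.homogeneous a b m hm.symm⟩

/-- if the entries in `n - r` rows vanish, all minors of size `r + 1` vanish -/
theorem minor_eq_zero (hr : r < n) (W : Finset (Fin n)) (hW : W.card = n - r) {p : Fin N → k}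
    (hp : ∀ a b, a ∈ W → eval p (D.M a b) = 0) (x) : eval p (D.minor r x) = 0 := by
  unfold minor
  rw [RingHom.map_det]
  by_cases hx : Function.Injective x.1
  · -- one of the rows vanishes
    have h1 : ∃ j, x.1 j ∈ W := by
      by_contra hcon
      push Not at hcon
      have h2 : (univ.image x.1).card ≤ (univ \ W).card := by
        refine Finset.card_le_card (fun a ha => ?_)
        obtain ⟨j, _, rfl⟩ := Finset.mem_image.1 ha
        exact Finset.mem_sdiff.2 ⟨mem_univ _, hcon j⟩
      rw [Finset.card_image_of_injective _ hx, Finset.card_univ, Fintype.card_fin,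
        Finset.card_sdiff_of_subset (Finset.subset_univ _), hW, Finset.card_univ,
        Fintype.card_fin] at h2
      omega
    obtain ⟨j, hj⟩ := h1
    refine Matrix.det_eq_zero_of_row_eq_zero j (fun l => ?_)
    exact hp _ _ hj
  · simp only [Function.Injective, not_forall] at hx
    obtain ⟨i, j, hij, hne⟩ := hx
    refine Matrix.det_zero_of_row_eq hne ?_
    funext l
    simp only [RingHom.mapMatrix_apply, Matrix.map_apply, Matrix.submatrix_apply, hij]

/-- the cyclic intervals of `n - r` rows -/
theorem card_window [NeZero n] (hr : r < n) (s : Fin n) :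
    (univ.filter fun a : Fin n => ((a - s : Fin n) : ℕ) < n - r).card = n - r := by
  have h1 : (univ.filter fun a : Fin n => ((a - s : Fin n) : ℕ) < n - r).card
      = (univ.filter fun a : Fin n => (a : ℕ) < n - r).card := by
    refine Finset.card_bij (fun a _ => a - s) ?_ ?_ ?_
    · intro a ha
      simpa using ha
    · intro a _ b _ h
      exact sub_left_injective h
    · intro b hb
      exact ⟨b + s, by simpa using hb, by simp⟩
  rw [h1, Fin.card_filter_val_lt]
  omega

theorem card_window' [NeZero n] (hr : r < n) (a : Fin n) :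
    (univ.filter fun s : Fin n => ((a - s : Fin n) : ℕ) < n - r).card = n - r := by
  have h1 : (univ.filter fun s : Fin n => ((a - s : Fin n) : ℕ) < n - r).card
      = (univ.filter fun s : Fin n => (s : ℕ) < n - r).card := by
    refine Finset.card_bij (fun s _ => a - s) ?_ ?_ ?_
    · intro a ha
      simpa using ha
    · intro a _ b _ h
      exact sub_right_injective h
    · intro b hb
      exact ⟨a - b, by simpa using hb, by simp⟩
  rw [h1, Fin.card_filter_val_lt]
  omega

open Classical in
/-- the weights which take no part in level `h` -/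
theorem not_good_le [IsAlgClosed k] [CharZero k] [Finite G] (hr : r < n) {h : ℕ}
    (hS : D.SectionRing r h) :
    ∑ i ∈ univ.filter (fun i => ¬ Good h (D.w i) (D.α i)), (D.w i : ℤ) ≤ D.top r := by
  have : NeZero n := ⟨by omega⟩
  choose d hd0 hd hhom using D.exists_degree
  have main := main_ineq (k := k) (G := G) (fun x : Fin n × Fin N => D.w x.2)
    (fun x => D.w_pos x.2) (fun x : Fin (n - r) × (Fin n × Fin n) => d x.2.1 x.2.2)
    (fun x => hd0 _ _) (fun x => D.α x.2) (fun x => D.χ x.2.1 * D.ψ x.2.2) h (by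
    intro g μ hμ
    set T : Finset (Fin N) := univ.filter (fun i => D.α i g = μ ^ D.w i) with hT
    have hTm : ∀ i, i ∈ T → D.α i g = μ ^ D.w i := fun i hi => (Finset.mem_filter.1 hi).2
    set E : Finset (Fin n × Fin n) :=
      univ.filter (fun x => (D.χ x.1 * D.ψ x.2) g = μ ^ d x.1 x.2) with hE
    have e1 : (univ.filter fun x : Fin n × Fin N => D.α x.2 g = μ ^ D.w x.2).card
        = n * T.card := by
      have : (univ.filter fun x : Fin n × Fin N => D.α x.2 g = μ ^ D.w x.2)
          = (univ : Finset (Fin n)) ×ˢ T := by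
        ext x
        simp [hT]
      rw [this, Finset.card_product, Finset.card_univ, Fintype.card_fin]
    have e2 : (univ.filter fun x : Fin (n - r) × (Fin n × Fin n) =>
        (D.χ x.2.1 * D.ψ x.2.2) g = μ ^ d x.2.1 x.2.2).card = (n - r) * E.card := by
      have : (univ.filter fun x : Fin (n - r) × (Fin n × Fin n) =>
          (D.χ x.2.1 * D.ψ x.2.2) g = μ ^ d x.2.1 x.2.2)
          = (univ : Finset (Fin (n - r))) ×ˢ E := by
        ext x
        simp [hE]
      rw [this, Finset.card_product, Finset.card_univ, Fintype.card_fin]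
    rw [e1, e2]
    -- one interval of rows
    have h1 : ∀ s : Fin n, T.card ≤ (E.filter fun x => ((x.1 - s : Fin n) : ℕ) < n - r).card := by
      intro s
      set W : Finset (Fin n) := univ.filter fun a : Fin n => ((a - s : Fin n) : ℕ) < n - r with hW
      have h2 := card_le_of (k := k) (κ := {x // x ∈ E.filter fun x =>
          ((x.1 - s : Fin n) : ℕ) < n - r}) T
        (fun x => D.M x.1.1 x.1.2) (by
          intro x
          exact Pool.Agent.TH144.NV.eval_origin (hhom _ _) (hd0 _ _)) (by
          intro p hp hz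
          by_contra hp0
          have hent : ∀ a b, a ∈ W → eval p (D.M a b) = 0 := by
            intro a b ha
            by_cases hab : (D.χ a * D.ψ b) g = μ ^ d a b
            · refine hz ⟨(a, b), ?_⟩
              rw [Finset.mem_filter, hE, Finset.mem_filter]
              exact ⟨⟨mem_univ _, hab⟩, (Finset.mem_filter.1 ha).2⟩
            · refine eval_eq_zero_of_ne (hhom a b) (fun i => (D.α i g : k))
                ((D.χ a g * D.ψ b g : kˣ) : k) (D.semi g a b) (μ : k) ?_ ?_
              · intro i
                by_cases hi : i ∈ T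
                · rw [hTm i hi, Units.val_pow_eq_pow_val]
                · rw [hp i hi, mul_zero, mul_zero]
              · intro h3
                apply hab
                ext
                rw [MonoidHom.mul_apply, h3, Units.val_pow_eq_pow_val]
          refine hμ (D.pow_eq_one hS (D.minor_eq_zero hr W (card_window hr s) hent) hp0 g μ
            (fun i => ?_))
          by_cases hi : i ∈ T
          · rw [hTm i hi, Units.val_pow_eq_pow_val]
          · rw [hp i hi, mul_zero, mul_zero])
      rw [Fintype.card_coe] at h2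
      exact h2
    -- all intervals
    have h2 : ∑ s : Fin n, (E.filter fun x => ((x.1 - s : Fin n) : ℕ) < n - r).card
        = (n - r) * E.card := by
      simp only [Finset.card_filter]
      rw [Finset.sum_comm]
      have h3 : ∀ x ∈ E, ∑ s : Fin n, (if ((x.1 - s : Fin n) : ℕ) < n - r then 1 else 0)
          = n - r := by
        intro x _
        rw [← Finset.card_filter]
        exact card_window' hr x.1
      rw [Finset.sum_congr rfl h3, Finset.sum_const, smul_eq_mul, mul_comm]
    rw [← h2]
    calc n * T.card = ∑ _s : Fin n, T.card := by simp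
      _ ≤ _ := Finset.sum_le_sum (fun s _ => h1 s))
  have h1 : ∑ x ∈ univ.filter (fun x : Fin n × Fin N => ¬ Good h (D.w x.2) (D.α x.2)), D.w x.2
      = n * ∑ i ∈ univ.filter (fun i => ¬ Good h (D.w i) (D.α i)), D.w i := by
    have : (univ.filter fun x : Fin n × Fin N => ¬ Good h (D.w x.2) (D.α x.2))
        = (univ : Finset (Fin n)) ×ˢ univ.filter (fun i => ¬ Good h (D.w i) (D.α i)) := by
      ext x
      simp
    rw [this, Finset.sum_product]
    simp
  have h2 : ∑ x ∈ univ.filter (fun x : Fin (n - r) × (Fin n × Fin n) =>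
      ¬ Good h (d x.2.1 x.2.2) (D.χ x.2.1 * D.ψ x.2.2)), d x.2.1 x.2.2
      ≤ ∑ x : Fin (n - r) × (Fin n × Fin n), d x.2.1 x.2.2 :=
    Finset.sum_le_sum_of_subset (Finset.filter_subset _ _)
  have h3 : ((∑ x : Fin (n - r) × (Fin n × Fin n), d x.2.1 x.2.2 : ℕ) : ℤ)
      = (n : ℤ) * D.top r := by
    rw [Fintype.sum_prod_type]
    simp only [Finset.sum_const, Finset.card_univ, Fintype.card_fin, smul_eq_mul]
    rw [Fintype.sum_prod_type]
    push_cast [Nat.cast_sub hr.le]
    simp only [hd, Finset.sum_add_distrib, Finset.sum_const, Finset.card_univ, Fintype.card_fin]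
    unfold top
    simp only [nsmul_eq_mul, ← Finset.mul_sum]
    ring
  have h4 : n * ∑ i ∈ univ.filter (fun i => ¬ Good h (D.w i) (D.α i)), D.w i
      ≤ ∑ x : Fin (n - r) × (Fin n × Fin n), d x.2.1 x.2.2 := by
    rw [← h1]
    exact le_trans (by convert main) h2
  have h5 : (n : ℤ) * ∑ i ∈ univ.filter (fun i => ¬ Good h (D.w i) (D.α i)), (D.w i : ℤ)
      ≤ n * D.top r := by
    rw [← h3]
    exact_mod_cast h4
  exact le_of_mul_le_mul_left h5 (by omega)

/-- the ideal contains no forms of degree one -/
theorem eq_zero_of_mem (hr0 : 1 ≤ r) {u : MvPolynomial (Fin N) k}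
    (hu : IsWeightedHomogeneous D.w u 1) (hI : u ∈ D.I r) : u = 0 := by
  have h1 : ∀ x, (Polynomial.X : Polynomial (MvPolynomial (Fin N) k)) ^ 2
      ∣ φ D.w (D.minor r x) := by
    intro x
    have h2 : ∀ a b, (Polynomial.X : Polynomial (MvPolynomial (Fin N) k)) ∣ φ D.w (D.M a b) := by
      intro a b
      obtain ⟨m, hm, _, hom⟩ := D.exists_degree a b
      rw [φ_hom hom]
      exact Dvd.dvd.mul_left (dvd_pow_self _ hm.ne') _
    choose Q hQ using h2
    have h3 : (φ D.w).toRingHom.mapMatrix (D.M.submatrix x.1 x.2) =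
        (Polynomial.X : Polynomial (MvPolynomial (Fin N) k)) •
          (Matrix.of fun i j => Q (x.1 i) (x.2 j)) := by
      ext1 a b
      simp only [RingHom.mapMatrix_apply, Matrix.map_apply, Matrix.smul_apply, Matrix.of_apply,
        smul_eq_mul, Matrix.submatrix_apply]
      exact hQ _ _
    have h4 : φ D.w (D.minor r x) = Polynomial.X ^ (r + 1) *
        (Matrix.of fun i j => Q (x.1 i) (x.2 j)).det := by
      have h5 : φ D.w (D.minor r x)
          = ((φ D.w).toRingHom.mapMatrix (D.M.submatrix x.1 x.2)).det := by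
        rw [← RingHom.map_det]; rfl
      rw [h5, h3, Matrix.det_smul, Fintype.card_fin]
    rw [h4]
    exact Dvd.dvd.mul_right (pow_dvd_pow _ (by omega)) _
  have h2 : (Polynomial.X : Polynomial (MvPolynomial (Fin N) k)) ^ 2 ∣ φ D.w u := by
    have h3 : Ideal.span (Set.range (D.minor r)) ≤
        Ideal.comap (φ D.w).toRingHom (Ideal.span {Polynomial.X ^ 2}) := by
      rw [Ideal.span_le]
      rintro _ ⟨x, rfl⟩
      rw [SetLike.mem_coe, Ideal.mem_comap, Ideal.mem_span_singleton]
      exact h1 x
    have h4 := h3 hI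
    rw [Ideal.mem_comap, Ideal.mem_span_singleton] at h4
    exact h4
  rw [φ_hom hu, pow_one, Polynomial.X_pow_dvd_iff] at h2
  have h3 := h2 1 (by norm_num)
  simpa using h3

variable (r) in
theorem finite_sections_one : FiniteDimensional k (D.sections r 1) := by
  let π : MvPolynomial (Fin N) k →ₗ[k] (MvPolynomial (Fin N) k ⧸ D.I r) :=
    (Ideal.Quotient.mkₐ k (D.I r)).toLinearMap
  have h1 : FiniteDimensional k
      (Submodule.span k (Set.range (X : Fin N → MvPolynomial (Fin N) k))) :=
    FiniteDimensional.span_of_finite k (Set.finite_range _)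
  have h3 : D.sections r 1 ≤ Submodule.map π
      (Submodule.span k (Set.range (X : Fin N → MvPolynomial (Fin N) k))) := by
    rintro _ ⟨a, ha, rfl⟩
    exact ⟨a, mem_span_X D.w_pos ha.1, rfl⟩
  exact Submodule.finiteDimensional_of_le h3

/-- variables of degree one are linearly independent in `R` -/
theorem card_le_finrank (hr0 : 1 ≤ r) (T : Finset (Fin N))
    (hInv : ∀ i ∈ T, D.Inv r 1 (X i)) : T.card ≤ Module.finrank k (D.sections r 1) := by
  classical
  have hfin := D.finite_sections_one r
  have hmem : ∀ c : {i // i ∈ T} → k,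
      Ideal.Quotient.mk (D.I r) (∑ i, c i • (X i.1 : MvPolynomial (Fin N) k))
        ∈ D.sections r 1 := by
    intro c
    rw [map_sum]
    refine Submodule.sum_mem _ (fun i _ => ?_)
    have h1 : Ideal.Quotient.mk (D.I r) (c i • (X i.1 : MvPolynomial (Fin N) k))
        = c i • Ideal.Quotient.mk (D.I r) (X i.1) := map_smul (Ideal.Quotient.mkₐ k (D.I r)) _ _
    rw [h1]
    exact Submodule.smul_mem _ _ ⟨X i.1, hInv i.1 i.2, rfl⟩
  let F : ({i // i ∈ T} → k) →ₗ[k] D.sections r 1 :=
    { toFun := fun c => ⟨Ideal.Quotient.mk (D.I r) (∑ i, c i • (X i.1 : MvPolynomial (Fin N) k)),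
        hmem c⟩
      map_add' := by
        intro c d
        apply Subtype.ext
        simp only [Pi.add_apply, add_smul, Finset.sum_add_distrib, map_add]
        rfl
      map_smul' := by
        intro r' c
        apply Subtype.ext
        simp only [Pi.smul_apply, smul_eq_mul, mul_smul, ← Finset.smul_sum, RingHom.id_apply]
        exact map_smul (Ideal.Quotient.mkₐ k (D.I r)) _ _ }
  have hF : Function.Injective F := by
    rw [injective_iff_map_eq_zero]
    intro c hc
    have h1 : Ideal.Quotient.mk (D.I r) (∑ i, c i • (X i.1 : MvPolynomial (Fin N) k)) = 0 :=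
      congrArg Subtype.val hc
    rw [Ideal.Quotient.eq_zero_iff_mem] at h1
    have h2 : IsWeightedHomogeneous D.w (∑ i, c i • (X i.1 : MvPolynomial (Fin N) k)) 1 := by
      rw [← mem_weightedHomogeneousSubmodule]
      refine Submodule.sum_mem _ (fun i _ => Submodule.smul_mem _ _ ?_)
      rw [mem_weightedHomogeneousSubmodule]
      exact (hInv i.1 i.2).1
    have h3 := D.eq_zero_of_mem hr0 h2 h1
    have h4 : LinearIndependent k (fun i : {i // i ∈ T} => (X i.1 : MvPolynomial (Fin N) k)) :=
      (linearIndependent_X (Fin N) k).comp _ Subtype.val_injective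
    funext i
    exact (Fintype.linearIndependent_iff.1 h4) c h3 i
  have h5 := LinearMap.finrank_le_finrank_of_injective hF
  simpa [Module.finrank_fintype_fun_eq_card, Fintype.card_coe] using h5

end Datum

open Classical in
theorem result [IsAlgClosed k] [CharZero k] [Finite G] (D : Datum k G N n) {r h : ℕ}
    (hr0 : 1 ≤ r) (hr : r < n) (hh : 0 < h)
    -- no variable vanishes on the cone
    (hfull : ∀ i, ∃ p ∈ D.Cone r, p i ≠ 0)
    -- the ring of the `(R_{hm})^G` is a section ring
    (hS : D.SectionRing r h) :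
    (∃ T : Finset (Fin N), ∑ i, (D.w i : ℤ) ≤ D.top r + ∑ i ∈ T, (D.w i : ℤ) ∧
      ∀ i ∈ T, D.w i ∣ h ∧ D.Inv r h (X i ^ (h / D.w i)) ∧
        ¬ IsNilpotent (Ideal.Quotient.mk (D.I r) (X i ^ (h / D.w i)))) ∧
    (D.top r < ∑ i, (D.w i : ℤ) → ∃ s ∈ D.sections r h, ¬ IsNilpotent s) ∧
    (h = 1 → ∑ i, (D.w i : ℤ) - D.top r ≤ Module.finrank k (D.sections r 1)) := by
  have hmain := D.not_good_le hr hS
  set T : Finset (Fin N) := univ.filter fun i => Good h (D.w i) (D.α i) with hT
  have hsum : ∑ i, (D.w i : ℤ) ≤ D.top r + ∑ i ∈ T, (D.w i : ℤ) := by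
    have h1 := Finset.sum_filter_add_sum_filter_not (univ : Finset (Fin N))
      (fun i => Good h (D.w i) (D.α i)) (fun i => (D.w i : ℤ))
    rw [← hT] at h1
    linarith
  have hprop : ∀ i ∈ T, D.w i ∣ h ∧ D.Inv r h (X i ^ (h / D.w i)) ∧
        ¬ IsNilpotent (Ideal.Quotient.mk (D.I r) (X i ^ (h / D.w i))) := by
    intro i hi
    obtain ⟨hdvd, hα⟩ := ((Finset.mem_filter.1 hi).2).dvd (D.w_pos i)
    have hne : h / D.w i ≠ 0 := by
      intro h0
      have := Nat.div_mul_cancel hdvd
      rw [h0, zero_mul] at this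
      omega
    refine ⟨hdvd, ⟨?_, ?_⟩, ?_⟩
    · have h1 := (isWeightedHomogeneous_X k D.w i).pow (h / D.w i)
      rwa [smul_eq_mul, Nat.div_mul_cancel hdvd] at h1
    · intro g
      have h1 : D.act g (X i ^ (h / D.w i)) = X i ^ (h / D.w i) := by
        rw [map_pow]
        show (Pool.Agent.TH144.NV.act (fun i => (D.α i g : k)) (X i)) ^ _ = _
        unfold Pool.Agent.TH144.NV.act
        rw [aeval_X, mul_pow, ← C_pow, ← Units.val_pow_eq_pow_val, hα g, Units.val_one, C_1,
          one_mul]
      rw [h1]
    · rintro ⟨m, hm⟩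
      obtain ⟨p, hp, hpi⟩ := hfull i
      rw [← map_pow, Ideal.Quotient.eq_zero_iff_mem] at hm
      have := D.eval_mem hp hm
      rw [map_pow, map_pow, eval_X] at this
      exact hpi (eq_zero_of_pow_eq_zero (eq_zero_of_pow_eq_zero this))
  refine ⟨⟨T, hsum, hprop⟩, ?_, ?_⟩
  · intro hlt
    have hne : T.Nonempty := by
      rw [Finset.nonempty_iff_ne_empty]
      intro h0
      rw [h0, Finset.sum_empty] at hsum
      omega
    obtain ⟨i, hi⟩ := hne
    exact ⟨_, ⟨_, (hprop i hi).2.1, rfl⟩, (hprop i hi).2.2⟩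
  · rintro rfl
    have hw1 : ∀ i ∈ T, D.w i = 1 := fun i hi => Nat.dvd_one.1 (hprop i hi).1
    have h1 := D.card_le_finrank hr0 T (fun i hi => by
      have h2 := (hprop i hi).2.1
      rw [hw1 i hi] at h2
      simpa using h2)
    have h2 : ∑ i ∈ T, (D.w i : ℤ) = T.card := by
      rw [Finset.sum_congr rfl (fun i hi => by rw [hw1 i hi, Nat.cast_one])]
      simp
    rw [h2] at hsum
    have h3 : (T.card : ℤ) ≤ Module.finrank k (D.sections r 1) := by exact_mod_cast h1
    linarith

end Pool.Agent.Results.MP_954e53_ag.DeterminantalFormats
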